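import Mathlib
import Pool.Agent.V11321.LRP.Final1

/-!
Every countably infinite group admits a generating measure whose long-range percolation has a finite
critical parameter.

The measure is `μ = (ρ + p) / 2`, where `p` is any symmetric measure of full support and `ρ` is a
mixture `∑ₙ (1/4) (3/4)ⁿ νₙ` of uniform measures on sparse finite symmetric sets, chosen one after
the other: given that the cluster of `1` built by the first `n` layers has at least `2 ^ n` points
inside a finite set `B` with probability at least `1/4`, the set supporting `νₙ` is chosen such that
its translates of `B` are disjoint, and a Hölder (AM-GM) argument shows that the next layer joins the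
cluster of `1` to a second one of at least `2 ^ n` points, up to a summable error.
-/

set_option autoImplicit false

namespace Pool.Agent.Results.MP_9aa340_pr.FiniteThreshold

open Pool.Agent.V11321.LRP

universe u

/-- Every countably infinite group `Γ` admits a generating measure `μ` with `λ_c(μ) < ∞`. -/
theorem result (Γ : Type u) [Group Γ] [Countable Γ] [Infinite Γ] :
    ∃ μ : GenMeasure Γ, μ.lambdaC < ⊤ :=
  exists_finite_lambdaC Γ

end Pool.Agent.Results.MP_9aa340_pr.FiniteThreshold
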